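import Mathlib
import Pool.Agent.H53.SpecDefs
import Pool.Agent.H53.SpecB

namespace Pool.Agent.Results.MP_6c75e4_nt.NotClosed

open Polynomial Pool.Agent.H53.SpecDefs

/-- For every monic irreducible non-hyperbolic `P` with an expanding root and every `k ≥ 0`, the
spectrum `𝓛^(k)(P)` is not closed and is not `[0, 1/2]`. -/
theorem result : ∀ (P : ℤ[X]) (k : ℕ), P.Monic → Irreducible P → 1 ≤ P.natDegree → P.eval 0 ≠ 0 →
    (∃ α ∈ P.aroots ℂ, 1 < ‖α‖) → (∃ β ∈ P.aroots ℂ, ‖β‖ = 1) →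
    ¬ IsClosed (Lspec P k) ∧ Lspec P k ≠ Set.Icc 0 (1 / 2) := by
  intro P k hm hirr _ _ h1 h2
  have := Pool.Agent.H53.SpecB.main P hm hirr h1 h2 k
  exact ⟨this, fun h => this (h ▸ isClosed_Icc)⟩

end Pool.Agent.Results.MP_6c75e4_nt.NotClosed
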